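import Pool.Agent.Lib.MP_6eb92e_al.Main

set_option autoImplicit false

namespace Pool.Agent.Results.MP_6eb92e_al.Commensurated

open Pool.Agent.Lib.MP_6eb92e_al

/-- Every commensurated subgroup of the Basilica group is commensurate with a normal subgroup. -/
theorem result (H : Subgroup Basilica)
    (hH : ∀ g : Basilica, Subgroup.Commensurable H (H.map (MulAut.conj g).toMonoidHom)) :
    ∃ N : Subgroup Basilica, N.Normal ∧ Subgroup.Commensurable H N :=
  main H hH

end Pool.Agent.Results.MP_6eb92e_al.Commensurated
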